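import Mathlib

/-! Localisation for lattices over a discrete valuation ring. -/

noncomputable section

open Finset Module
open scoped Pointwise

namespace Pool.Agent.Lib.MP_b169d2_gt.SD

variable {O K V : Type*} [CommRing O] [Field K] [Algebra O K] [AddCommGroup V] [Module O V]
  [Module K V] [IsScalarTower O K V]

lemma mem_usmul (u : Kˣ) (M : Submodule O V) (x : V) :
    x ∈ u • M ↔ ((u⁻¹ : Kˣ) : K) • x ∈ M := by
  rw [Units.smul_def, Submodule.mem_smul_pointwise_iff_exists]
  constructor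
  · rintro ⟨y, hy, rfl⟩
    rw [smul_smul, Units.inv_mul, one_smul]
    exact hy
  · intro h
    exact ⟨_, h, by rw [smul_smul, Units.mul_inv, one_smul]⟩

lemma usmul_mono (u : Kˣ) {M N : Submodule O V} (h : M ≤ N) : u • M ≤ u • N := fun x hx =>
  (mem_usmul u N x).2 (h ((mem_usmul u M x).1 hx))

/-- `x` is divisible by `p ^ c`. -/
def Dv (O : Type*) [CommRing O] [Algebra O K] (p : Kˣ) (c : ℤ) (x : K) : Prop :=
  ∃ a : O, x = ((p ^ c : Kˣ) : K) * algebraMap O K a

lemma Dv.zero (p : Kˣ) (c : ℤ) : Dv O p c (0 : K) := ⟨0, by simp⟩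

lemma Dv.mono {p : Kˣ} {q : O} (hq : algebraMap O K q = p) {c d : ℤ} (h : d ≤ c) {x : K}
    (hx : Dv O p c x) : Dv O p d x := by
  obtain ⟨a, rfl⟩ := hx
  obtain ⟨m, rfl⟩ := Int.le.dest h
  refine ⟨q ^ m * a, ?_⟩
  rw [zpow_add, zpow_natCast, map_mul, map_pow, hq, Units.val_mul, Units.val_pow_eq_pow_val,
    mul_assoc]

lemma dv_shift (p : Kˣ) (c i : ℤ) (x : K) :
    Dv O p c ((((p ^ i)⁻¹ : Kˣ) : K) * x) ↔ Dv O p (c + i) x := by
  refine exists_congr fun a => ?_
  rw [Units.inv_mul_eq_iff_eq_mul, ← mul_assoc, ← Units.val_mul, ← zpow_add, add_comm]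

variable {ι : Type*}

/-- The lattice spanned by the `p ^ c k • e k`. -/
def box (O : Type*) [CommRing O] [Algebra O K] [Module O V] [IsScalarTower O K V] (p : Kˣ)
    (e : Basis ι K V) (c : ι → ℤ) : Submodule O V where
  carrier := {x | ∀ k, Dv O p (c k) (e.repr x k)}
  zero_mem' := fun k => by simpa using Dv.zero p (c k)
  add_mem' := fun {x y} hx hy k => by
    obtain ⟨a, ha⟩ := hx k
    obtain ⟨b, hb⟩ := hy k
    exact ⟨a + b, by simp [ha, hb, mul_add]⟩
  smul_mem' := fun s x hx k => by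
    obtain ⟨a, ha⟩ := hx k
    refine ⟨s * a, ?_⟩
    rw [← algebraMap_smul K s x, map_smul, Finsupp.smul_apply, ha, smul_eq_mul, map_mul]
    ring

lemma mem_box {p : Kˣ} {e : Basis ι K V} {c : ι → ℤ} {x : V} :
    x ∈ box O p e c ↔ ∀ k, Dv O p (c k) (e.repr x k) := Iff.rfl

lemma smul_box (p : Kˣ) (e : Basis ι K V) (c : ι → ℤ) (i : ℤ) :
    (p ^ i) • box O p e c = box O p e fun k => c k + i := by
  ext x
  rw [mem_usmul, mem_box, mem_box]
  refine forall_congr' fun k => ?_
  rw [map_smul, Finsupp.smul_apply, smul_eq_mul, dv_shift]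

lemma box_mono {p : Kˣ} {q : O} (hq : algebraMap O K q = p) (e : Basis ι K V) {c d : ι → ℤ}
    (h : ∀ k, d k ≤ c k) : box O p e c ≤ box O p e d := fun _ hx k => (hx k).mono hq (h k)

/-- The canonical deformation of `M` relative to `L`. -/
def Lphi (p : Kˣ) (φ : ℤ → ℤ) (L M : Submodule O V) : Submodule O V :=
  ⨆ i : ℤ, (p ^ φ i) • L ⊓ (p ^ (φ i - i)) • M

lemma Lphi_mono (p : Kˣ) (φ : ℤ → ℤ) (L : Submodule O V) {M N : Submodule O V} (h : M ≤ N) :
    Lphi p φ L M ≤ Lphi p φ L N :=
  iSup_mono fun _ => inf_le_inf_left _ (usmul_mono _ h)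

lemma Lphi_box [Fintype ι] {p : Kˣ} {q : O} (hq : algebraMap O K q = p) {φ : ℤ → ℤ}
    (h1 : ∀ i j, i ≤ j → φ i ≤ φ j) (h2 : ∀ i j, i ≤ j → φ j - j ≤ φ i - i) (e : Basis ι K V)
    (a : ι → ℤ) : Lphi p φ (box O p e 0) (box O p e a) = box O p e fun k => φ (a k) := by
  classical
  apply le_antisymm
  · refine iSup_le fun i => ?_
    rw [smul_box, smul_box]
    intro x hx k
    rcases le_total (a k) i with h | h
    · exact (hx.1 k).mono hq (by simpa using h1 _ _ h)
    · exact (hx.2 k).mono hq (by have := h2 _ _ h; linarith)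
  · intro x hx
    rw [← e.sum_repr x]
    refine Submodule.sum_mem _ fun k _ => Submodule.mem_iSup_of_mem (a k) ?_
    rw [smul_box, smul_box]
    constructor <;> intro j <;>
      rw [map_smul, Basis.repr_self, Finsupp.smul_apply, Finsupp.single_apply] <;> split_ifs with h
    · subst h
      simpa using hx k
    · simpa using Dv.zero _ _
    · subst h
      simpa using hx k
    · simpa using Dv.zero _ _

/-- A monotone `1`-Lipschitz function close to the identity, constant near given points. -/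
lemma exists_phi [Fintype ι] (a : ι → ℤ) (r : ℕ) : ∃ φ : ℤ → ℤ, (∀ i j, i ≤ j → φ i ≤ φ j) ∧
    (∀ i j, i ≤ j → φ j - j ≤ φ i - i) ∧ (∀ i, φ i ≤ i) ∧
    (∀ i, i - (2 * r * Fintype.card ι : ℕ) ≤ φ i) ∧ ∀ k, φ (a k + r) = φ (a k - r) := by
  classical
  let B : Finset ℤ := univ.biUnion fun k => Ioc (a k - r) (a k + r)
  have hB : B.card ≤ 2 * r * Fintype.card ι := by
    refine card_biUnion_le.trans (le_of_eq ?_)
    have : ∀ k, (Ioc (a k - r) (a k + r)).card = 2 * r := fun k => by
      rw [Int.card_Ioc]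
      omega
    simp [this, mul_comm]
  let ψ : ℤ → ℕ := fun i => (B.filter (· ≤ i)).card
  have hψ : ∀ i j, i ≤ j → ψ j = ψ i + (B.filter fun s => i < s ∧ s ≤ j).card := fun i j h => by
    simp only [ψ]
    rw [← card_union_of_disjoint, ← filter_or]
    · congr 1
      refine filter_congr fun s _ => ?_
      omega
    · rw [disjoint_filter]
      intro s _ h1 h2
      omega
  refine ⟨fun i => i - ψ i, fun i j h => ?_, fun i j h => ?_, fun i => by simp, fun i => ?_,
    fun k => ?_⟩
  · have h3 : (B.filter fun s => i < s ∧ s ≤ j).card ≤ (Ioc i j).card :=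
      card_le_card fun s hs => mem_Ioc.2 (mem_filter.1 hs).2
    rw [Int.card_Ioc] at h3
    have := hψ i j h
    beta_reduce
    omega
  · have := hψ i j h
    beta_reduce
    omega
  · have : ψ i ≤ B.card := card_filter_le _ _
    beta_reduce
    omega
  · have h3 : (B.filter fun s => a k - r < s ∧ s ≤ a k + r) = Ioc (a k - r) (a k + r) := by
      ext s
      simp only [mem_filter, mem_Ioc, and_iff_right_iff_imp]
      intro hs
      exact mem_biUnion.2 ⟨k, mem_univ _, mem_Ioc.2 hs⟩
    have := hψ (a k - r) (a k + r) (by omega)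
    rw [h3, Int.card_Ioc] at this
    beta_reduce
    omega

lemma box_eq_span [Fintype ι] (p : Kˣ) (e : Basis ι K V) (c : ι → ℤ) :
    box O p e c = Submodule.span O (Set.range fun k => ((p ^ c k : Kˣ) : K) • e k) := by
  classical
  apply le_antisymm
  · intro x hx
    rw [← e.sum_repr x]
    refine Submodule.sum_mem _ fun k _ => ?_
    obtain ⟨a, ha⟩ := hx k
    rw [ha, mul_comm, mul_smul, algebraMap_smul]
    exact Submodule.smul_mem _ _ (Submodule.subset_span ⟨k, rfl⟩)
  · rw [Submodule.span_le]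
    rintro _ ⟨k, rfl⟩ j
    rw [map_smul, Basis.repr_self, Finsupp.smul_apply, Finsupp.single_apply]
    split_ifs with h
    · subst h
      exact ⟨1, by simp⟩
    · simpa using Dv.zero _ _

section DVR

variable [IsDomain O] [IsDiscreteValuationRing O] [IsFractionRing O K]

/-- Some multiple of a lattice is contained in any other lattice. -/
lemma exists_smul_le {p : Kˣ} {q : O} (hq : algebraMap O K q = p) (hi : Irreducible q)
    (L M : Submodule O V) [L.IsLattice K] [M.IsLattice K] : ∃ m : ℕ, (p ^ (m : ℤ)) • M ≤ L := by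
  have h1 : ∀ x : V, ∃ m : ℕ, ((p ^ (m : ℤ) : Kˣ) : K) • x ∈ L := fun x => by
    have hx : x ∈ Submodule.span K (L : Set V) := by
      rw [Submodule.IsLattice.span_eq_top]
      trivial
    obtain ⟨t, ht⟩ := multiple_mem_span_of_mem_localization_span (nonZeroDivisors O) K _ x hx
    rw [Submodule.span_eq] at ht
    obtain ⟨m, u, hu⟩ := IsDiscreteValuationRing.eq_unit_mul_pow_irreducible
      (nonZeroDivisors.ne_zero t.2) hi
    refine ⟨m, ?_⟩
    have h2 := L.smul_mem ((u⁻¹ : Oˣ) : O) ht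
    rw [Submonoid.smul_def, hu, smul_smul, Units.inv_mul_cancel_left, ← algebraMap_smul K, map_pow,
      hq] at h2
    rwa [zpow_natCast, Units.val_pow_eq_pow_val]
  choose f hf using h1
  obtain ⟨s, hs⟩ := Submodule.IsLattice.fg (M := M)
  refine ⟨s.sup f, ?_⟩
  rw [← hs, Units.smul_def, Submodule.smul_span, Submodule.span_le]
  rintro _ ⟨x, hx, rfl⟩
  obtain ⟨d, hd⟩ := Nat.exists_eq_add_of_le (le_sup (f := f) hx)
  have h2 := L.smul_mem (q ^ d) (hf x)
  rw [← algebraMap_smul K, map_pow, hq, smul_smul] at h2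
  rw [hd]
  simpa [zpow_add₀, mul_comm] using h2

/-- Elementary divisors. -/
lemma exists_smith [FiniteDimensional K V] {p : Kˣ} {q : O} (hq : algebraMap O K q = p)
    (hi : Irreducible q) (L M : Submodule O V) [L.IsLattice K] [M.IsLattice K] :
    ∃ (e : Basis (Fin (finrank K V)) K V) (a : Fin (finrank K V) → ℤ),
      L = box O p e 0 ∧ M = box O p e a := by
  obtain ⟨m, hm⟩ := exists_smul_le hq hi L M
  set N : Submodule O V := (p ^ (m : ℤ)) • M with hN
  have hNl : N.IsLattice K := Submodule.IsLattice.smul K M _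
  have hr : ∀ (P : Submodule O V) [P.IsLattice K], finrank O P = finrank K V := fun P _ => by
    unfold finrank
    rw [Submodule.IsLattice.rank' K P]
  let b : Basis (Fin (finrank K V)) O L := Module.finBasisOfFinrankEq O L (hr L)
  let E := Submodule.comapSubtypeEquivOfLe hm
  obtain ⟨b', a, ab', h⟩ := Submodule.exists_smith_normal_form_of_rank_eq (N := N.comap L.subtype)
    b (by rw [E.finrank_eq, hr, hr])
  have ha : ∀ i, a i ≠ 0 := fun i h0 => ab'.ne_zero i (Subtype.ext (by rw [h i, h0, zero_smul]; rfl))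
  choose j u hu using fun i => IsDiscreteValuationRing.eq_unit_mul_pow_irreducible (ha i) hi
  have hsp : ∀ (P : Submodule O V) (c : Basis (Fin (finrank K V)) O P),
      P = Submodule.span O (Set.range fun i => (c i : V)) := fun P c => by
    have := congrArg (Submodule.map P.subtype) c.span_eq
    rw [Submodule.map_span, Submodule.map_top, Submodule.range_subtype, ← Set.range_comp] at this
    exact this.symm
  refine ⟨b'.extendOfIsLattice K, fun i => (j i : ℤ) - m, ?_, ?_⟩
  · rw [box_eq_span]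
    simpa using hsp L b'
  · have h2 : N = box O p (b'.extendOfIsLattice K) fun i => (j i : ℤ) := by
      rw [box_eq_span, hsp N (ab'.map E)]
      have h3 : ∀ i, ((ab'.map E) i : V) =
          (u i : O) • (((p ^ (j i : ℤ) : Kˣ) : K) • b'.extendOfIsLattice K i) := fun i => by
        have h4 : ((ab'.map E) i : V) = ((ab' i : L) : V) := rfl
        rw [h4, h i, hu i, Basis.extendOfIsLattice_apply, Submodule.coe_smul, mul_smul,
          ← algebraMap_smul K (q ^ j i), map_pow, hq, zpow_natCast, Units.val_pow_eq_pow_val]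
      apply le_antisymm <;> rw [Submodule.span_le] <;> rintro _ ⟨i, rfl⟩
      · beta_reduce
        rw [h3]
        exact Submodule.smul_mem _ _ (Submodule.subset_span ⟨i, rfl⟩)
      · have h5 := Submodule.smul_mem (Submodule.span O (Set.range fun i => ((ab'.map E) i : V)))
          (((u i)⁻¹ : Oˣ) : O) (Submodule.subset_span ⟨i, rfl⟩)
        beta_reduce at h5
        rwa [h3, smul_smul, Units.inv_mul, one_smul] at h5
    have h3 : M = (p ^ (-(m : ℤ))) • N := by
      rw [hN, smul_smul, ← zpow_add, neg_add_cancel, zpow_zero, one_smul]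
    rw [h3, h2, smul_box]
    rfl

/-- Localisation: a centre `b M` above `M`, taking polynomially many values on every ball. -/
theorem loc [FiniteDimensional K V] {p : Kˣ} {q : O} (hq : algebraMap O K q = p)
    (hi : Irreducible q) (L : Submodule O V) [L.IsLattice K] (r : ℕ) :
    ∃ b : Submodule O V → Submodule O V, ∀ (M' : Submodule O V) [M'.IsLattice K],
      ∃ S : Finset (Submodule O V), S.card ≤ (2 * r * finrank K V + 1) ^ finrank K V ∧
        ∀ (M : Submodule O V) [M.IsLattice K], (p ^ (r : ℤ)) • M ≤ M' → (p ^ (r : ℤ)) • M' ≤ M →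
          b M ∈ S ∧ M' ≤ b M ∧ (p ^ ((2 * r * finrank K V : ℕ) : ℤ)) • b M ≤ M' := by
  classical
  have h0 : ∀ M : Submodule O V, ∃ φ : ℤ → ℤ, (∀ i j, i ≤ j → φ i ≤ φ j) ∧
      (∀ i j, i ≤ j → φ j - j ≤ φ i - i) ∧ (∀ i, φ i ≤ i) ∧
      (∀ i, i - (2 * r * finrank K V : ℕ) ≤ φ i) ∧ (M.IsLattice K →
        Lphi p φ L ((p ^ (-(r : ℤ))) • M) = Lphi p φ L ((p ^ (r : ℤ)) • M)) := fun M => by
    by_cases hM : M.IsLattice K
    · obtain ⟨e, a, h1, h2⟩ := exists_smith hq hi L M
      obtain ⟨φ, h3, h4, h5, h6, h7⟩ := exists_phi a r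
      refine ⟨φ, h3, h4, h5, by simpa using h6, fun _ => ?_⟩
      rw [h1, h2, smul_box, smul_box, Lphi_box hq h3 h4, Lphi_box hq h3 h4]
      congr 1
      funext k
      rw [h7 k, sub_eq_add_neg]
    · exact ⟨id, fun _ _ h => h, fun _ _ _ => by simp, fun _ => le_rfl,
        fun _ => sub_le_self _ (Int.natCast_nonneg _), fun h => absurd h hM⟩
  choose φ h1 h2 h3 h4 h5 using h0
  refine ⟨fun M => Lphi p (φ M) L ((p ^ (r : ℤ)) • M), fun M' _ => ?_⟩
  obtain ⟨e, a, he, ha⟩ := exists_smith hq hi L M'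
  set T : ℕ := 2 * r * finrank K V with hT
  refine ⟨(Fintype.piFinset fun k => Icc (a k - T) (a k)).image (box O p e), ?_,
    fun M hM h6 h7 => ?_⟩
  · refine card_image_le.trans (le_of_eq ?_)
    have : ∀ k, (Icc (a k - T) (a k)).card = T + 1 := fun k => by
      rw [Int.card_Icc]
      omega
    simp [this]
  · have h8 : M' ≤ (p ^ (-(r : ℤ))) • M := by
      have := usmul_mono (p ^ (-(r : ℤ))) h7
      rwa [smul_smul, ← zpow_add, neg_add_cancel, zpow_zero, one_smul] at this
    have h9 : Lphi p (φ M) L ((p ^ (r : ℤ)) • M) = box O p e fun k => φ M (a k) := by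
      rw [← Lphi_box hq (h1 M) (h2 M), ← he, ← ha]
      exact le_antisymm (Lphi_mono _ _ _ h6) ((Lphi_mono _ _ _ h8).trans (h5 M hM).le)
    beta_reduce
    rw [h9]
    refine ⟨mem_image.2 ⟨_, Fintype.mem_piFinset.2 fun k => mem_Icc.2 ⟨h4 M _, h3 M _⟩, rfl⟩,
      ?_, ?_⟩
    · rw [ha]
      exact box_mono hq e fun k => h3 M _
    · rw [smul_box, ha]
      exact box_mono hq e fun k => by have := h4 M (a k); linarith

end DVR

end Pool.Agent.Lib.MP_b169d2_gt.SD
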